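import Pool.Agent.H31.UF.Targets
import Pool.Agent.H12.LF.Av

/-!
# Row UC of the board `uf_modules`: the pairs are uniform along every form
-/

set_option autoImplicit false

open Finset Filter Topology

namespace Pool.Agent.H88.UF

open Pool.Agent.H91.LF Pool.Agent.H31.UF
open Pool.Agent.H12.LF (Ls Wt Ls_nonneg Wt_nonneg wt_nonneg Ls_ge' mem_box)
open Pool.Agent.H31.DP (FF Uc)
open Pool.Agent.H31.GUF (UU gl AS F_CH F_AP)

/-! ### harmonic sums -/

theorem harm_le {x : ℕ} (hx : 0 < x) (M : ℕ) (h : x ≤ M) :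
    Ls x M ≤ 1 + Real.log ((M : ℝ) / x) := by
  have hx' : (0 : ℝ) < x := by exact_mod_cast hx
  induction M, h using Nat.le_induction with
  | base =>
    unfold Ls
    rw [Finset.Icc_self, Finset.sum_singleton, div_self hx'.ne', Real.log_one, add_zero,
      div_le_one hx']
    exact_mod_cast hx
  | succ M hM ih =>
    have hM' : (0 : ℝ) < M := by exact_mod_cast hx.trans_le hM
    have h1 : Ls x (M + 1) = Ls x M + 1 / ((M + 1 : ℕ) : ℝ) := by
      unfold Ls
      rw [Finset.sum_Icc_succ_top (by omega)]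
    rw [h1]
    have h2 : Real.log (((M + 1 : ℕ) : ℝ) / x) =
        Real.log ((M : ℝ) / x) + Real.log (((M + 1 : ℕ) : ℝ) / M) := by
      rw [← Real.log_mul (by positivity) (by positivity)]
      congr 1
      field_simp
    have h3 : 1 / ((M + 1 : ℕ) : ℝ) ≤ Real.log (((M + 1 : ℕ) : ℝ) / M) := by
      have h4 := Real.one_sub_inv_le_log_of_pos (show (0 : ℝ) < ((M + 1 : ℕ) : ℝ) / M by positivity)
      refine le_trans (le_of_eq ?_) h4
      push_cast
      field_simp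
      ring
    rw [h2]
    linarith

/-- the harmonic sum over the `N` below `L T` -/
theorem harm_cut {x : ℕ} (hx : 0 < x) (y L T : ℕ) (hL : 1 ≤ L) :
    ∑ N ∈ Finset.Icc x y, (1 / (N : ℝ)) * (if N < L * T then 1 else 0) ≤
      1 + Real.log L + Real.log (1 + (T : ℝ) / x) := by
  have hx' : (0 : ℝ) < x := by exact_mod_cast hx
  have hL' : (1 : ℝ) ≤ L := by exact_mod_cast hL
  have hT' : (0 : ℝ) ≤ T := Nat.cast_nonneg T
  have hlog0 : 0 ≤ Real.log (L : ℝ) := Real.log_nonneg hL'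
  have hlog1 : 0 ≤ Real.log (1 + (T : ℝ) / x) := Real.log_nonneg (by
    have : 0 ≤ (T : ℝ) / x := by positivity
    linarith)
  rcases le_or_gt x (L * T) with h | h
  · have h1 : ∑ N ∈ Finset.Icc x y, (1 / (N : ℝ)) * (if N < L * T then 1 else 0) ≤
        Ls x (L * T) := by
      unfold Ls
      have h2 : ∑ N ∈ Finset.Icc x y, (1 / (N : ℝ)) * (if N < L * T then 1 else 0) =
          ∑ N ∈ (Finset.Icc x y).filter (fun N => N < L * T), (1 / (N : ℝ)) := by
        rw [Finset.sum_filter]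
        refine Finset.sum_congr rfl fun N _ => ?_
        split_ifs <;> simp
      rw [h2]
      refine Finset.sum_le_sum_of_subset_of_nonneg ?_ fun N _ _ => by positivity
      intro N hN
      rw [Finset.mem_filter, Finset.mem_Icc] at hN
      rw [Finset.mem_Icc]
      exact ⟨hN.1.1, hN.2.le⟩
    refine h1.trans ((harm_le hx _ h).trans ?_)
    have hT : 0 < T := by
      rcases Nat.eq_zero_or_pos T with h0 | h0
      · subst h0
        omega
      · exact h0
    have hT'' : (0 : ℝ) < T := by exact_mod_cast hT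
    have h3 : Real.log (((L * T : ℕ) : ℝ) / x) ≤ Real.log L + Real.log (1 + (T : ℝ) / x) := by
      rw [← Real.log_mul (by positivity) (by positivity)]
      apply Real.log_le_log (by positivity)
      push_cast
      rw [mul_div_assoc]
      apply mul_le_mul_of_nonneg_left _ (by positivity)
      linarith
    linarith
  · have h1 : ∑ N ∈ Finset.Icc x y, (1 / (N : ℝ)) * (if N < L * T then 1 else 0) = 0 := by
      refine Finset.sum_eq_zero fun N hN => ?_
      rw [Finset.mem_Icc] at hN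
      rw [if_neg (by omega), mul_zero]
    rw [h1]
    linarith

/-! ### the pairs -/

theorem lf_cf {k m : ℕ} (b : Fin m → ℤ) (σ : Finset (Fin k)) (z : Fin (k + 1) → ℤ)
    (t : Fin m → ℤ) : lf (cf b σ) (Fin.append z t) = vx z σ + ∑ l, b l * t l := by
  unfold lf cf vx
  rw [Fin.sum_univ_add]
  simp only [Fin.append_left, Fin.append_right]
  rw [Fin.sum_univ_succ]
  simp only [Fin.cons_zero, Fin.cons_succ, one_mul, ite_mul, zero_mul]
  rw [Finset.sum_ite_mem, Finset.univ_inter]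

theorem vx_shift {k : ℕ} (z : Fin (k + 1) → ℤ) (τ : ℤ) (σ : Finset (Fin k)) :
    vx (z + Pi.single 0 τ) σ = vx z σ + τ := by
  unfold vx
  simp only [Pi.add_apply, Pi.single_eq_same]
  have h : ∀ i ∈ σ, z i.succ + (Pi.single (0 : Fin (k + 1)) τ : Fin (k + 1) → ℤ) i.succ =
      z i.succ := by
    intro i _
    rw [Pi.single_eq_of_ne (Fin.succ_ne_zero i), add_zero]
  rw [Finset.sum_congr rfl h]
  ring

theorem FF_two (s : ℕ) (n : ℤ) : FF ![0, s] 1 n = lz n * lz (n + s) := by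
  unfold FF
  simp [Fin.prod_univ_two]

theorem abs_FF_le {l : ℕ} (h : Fin l → ℕ) (n : ℤ) : |FF h 1 n| ≤ 1 :=
  abs_prod_le _ _ fun _ _ => abs_lz_le _

theorem pair_eq {k m : ℕ} (b : Fin m → ℤ) (w s : ℤ) : ∃ u : ℤ,
    ∀ (z : Fin (k + 1) → ℤ) (t : Fin m → ℤ),
      Pv (cf (k := k) b) w (Fin.append z t) * Pv (cf (k := k) b) (w + s) (Fin.append z t) =
        ∏ σ, FF ![0, s.natAbs] 1 (vx (z + Pi.single 0 (u + ∑ l, b l * t l)) σ) := by
  rcases le_or_gt 0 s with hs | hs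
  · refine ⟨w, fun z t => ?_⟩
    unfold Pv
    rw [← Finset.prod_mul_distrib]
    refine Finset.prod_congr rfl fun σ _ => ?_
    rw [FF_two, vx_shift, lf_cf, Int.natCast_natAbs, abs_of_nonneg hs]
    congr 2 <;> ring
  · refine ⟨w + s, fun z t => ?_⟩
    unfold Pv
    rw [← Finset.prod_mul_distrib]
    refine Finset.prod_congr rfl fun σ _ => ?_
    rw [FF_two, vx_shift, lf_cf, Int.natCast_natAbs, abs_of_neg hs, mul_comm]
    congr 2 <;> ring

/-- the sum over the cubes, without translation -/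
theorem UU_eq (hCBU : T_CBU) (k N : ℕ) {l : ℕ} (h : Fin l → ℕ) :
    UU k N (gl h) = (∑ z ∈ CB k N, ∏ s, FF h 1 (vx z s)) / (N : ℝ) ^ (k + 1) := by
  unfold UU
  rw [← hCBU k N (fun n => FF h 1 n)]
  rfl

theorem abs_sum_CB_le (hCBC : T_CBC) (k N : ℕ) (f : (Fin (k + 1) → ℤ) → ℝ)
    (hf : ∀ z, |f z| ≤ 1) : |∑ z ∈ CB k N, f z| ≤ 3 ^ k * (N : ℝ) ^ (k + 1) := by
  refine (Finset.abs_sum_le_sum_abs _ _).trans ?_
  refine (Finset.sum_le_card_nsmul _ _ 1 (fun z _ => hf z)).trans ?_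
  rw [nsmul_eq_mul, mul_one]
  exact (hCBC k).2.1 N

/-- the uniformity norms of order one -/
theorem U_one (N : ℕ) (g : ℤ → ℝ) :
    (Uc N 1 (Finset.Icc (1 : ℤ) N) (fun n => ((g n : ℝ) : ℂ))).re =
      (∑ n ∈ Finset.Icc (1 : ℤ) N, g n) ^ 2 := by
  have h1 : Uc N 1 (Finset.Icc (1 : ℤ) N) (fun n => ((g n : ℝ) : ℂ)) =
      ((∑ n ∈ Finset.Icc (1 : ℤ) N, ∑ q ∈ Finset.Icc (1 : ℤ) N, g n * g q : ℝ) : ℂ) := by
    simp only [Uc, Complex.conj_ofReal]
    simp_rw [Finset.sum_filter]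
    rw [Finset.sum_comm]
    push_cast
    refine Finset.sum_congr rfl fun n hn => ?_
    rw [Finset.mem_Icc] at hn
    rw [← Finset.sum_filter]
    refine Finset.sum_nbij' (fun t => n + t) (fun q => q - n) ?_ ?_ ?_ ?_ ?_
    · intro t ht
      exact (Finset.mem_filter.1 ht).2
    · intro q hq
      rw [Finset.mem_Icc] at hq
      rw [Finset.mem_filter, Finset.mem_Icc, Finset.mem_Icc]
      exact ⟨⟨by omega, by omega⟩, by omega, by omega⟩
    · intro t _
      simp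
    · intro q _
      simp
    · intro t _
      ring
  rw [h1, Complex.ofReal_re, sq, Finset.sum_mul_sum]

theorem sum_Icc_cast (N : ℕ) (f : ℤ → ℝ) :
    ∑ n ∈ Finset.Icc (1 : ℤ) N, f n = ∑ n ∈ Finset.Icc 1 N, f (n : ℤ) := by
  refine Finset.sum_nbij' (fun n => n.toNat) (fun n => (n : ℤ)) ?_ ?_ ?_ ?_ ?_
  · intro n hn
    rw [Finset.mem_Icc] at hn ⊢
    omega
  · intro n hn
    rw [Finset.mem_Icc] at hn ⊢
    omega
  · intro n hn
    rw [Finset.mem_Icc] at hn
    omega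
  · intro n _
    simp
  · intro n hn
    rw [Finset.mem_Icc] at hn
    congr 1
    omega

/-- the scales at which the pairs are not uniform -/
theorem scales (hCH : F_CH) (hAP : F_AP) (k : ℕ) (hk : 1 ≤ k) (s : ℕ) (hs : s ≠ 0) (δ ρ : ℝ)
    (hδ : 0 < δ) (hρ : 0 < ρ) : ∃ K : ℕ, ∀ x y : ℕ, 0 < x → K * x ≤ y →
      ∑ N ∈ Finset.Icc x y, (1 / (N : ℝ)) * (if δ ≤ UU k N (gl ![0, s]) then 1 else 0) ≤
        ρ * Real.log ((y : ℝ) / x) := by
  classical
  have hinj : Function.Injective (![0, s] : Fin 2 → ℕ) := by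
    intro i j hij
    fin_cases i <;> fin_cases j
    · rfl
    · simp at hij
      exact absurd hij.symm hs
    · simp at hij
      exact absurd hij hs
    · rfl
  have hfil : ∀ x y : ℕ, ∑ N ∈ Finset.Icc x y, (1 / (N : ℝ)) *
      (if δ ≤ UU k N (gl ![0, s]) then 1 else 0) =
      ∑ N ∈ (Finset.Icc x y).filter (fun N : ℕ => δ ≤ UU k N (gl ![0, s])), (1 / (N : ℝ)) := by
    intro x y
    rw [Finset.sum_filter]
    refine Finset.sum_congr rfl fun N _ => ?_
    by_cases h : δ ≤ UU k N (gl ![0, s])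
    · rw [if_pos h, if_pos h, mul_one]
    · rw [if_neg h, if_neg h, mul_zero]
  rcases Nat.lt_or_ge k 2 with hk2 | hk2
  · have hk1 : k = 1 := by omega
    subst hk1
    obtain ⟨L, hL⟩ := exists_nat_gt (1 / δ)
    have hL0 : 0 < L := by
      have : (0 : ℝ) < L := lt_trans (by positivity) hL
      exact_mod_cast this
    have hL0' : (1 : ℝ) ≤ L := by exact_mod_cast hL0
    obtain ⟨K, hK⟩ := hAP 2 ![0, s] L ρ (Or.inr rfl) hinj hL0 hρ
    refine ⟨K, fun x y hx hxy => ?_⟩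
    rw [hfil]
    refine le_trans ?_ (hK x y hx hxy)
    refine Finset.sum_le_sum_of_subset_of_nonneg ?_ fun N _ _ => by positivity
    intro N hN
    rw [Finset.mem_filter] at hN
    have hN0 : 0 < N := by
      have := (Finset.mem_Icc.1 hN.1).1
      omega
    have hN0' : (0 : ℝ) < N := by exact_mod_cast hN0
    rw [Finset.mem_filter]
    refine ⟨hN.1, fun hAS => ?_⟩
    have h1 := hAS 1 0 N le_rfl hL0 le_rfl
    have h2 : (Finset.Icc 1 N).filter (fun n : ℕ => n ≡ 0 [MOD 1]) = Finset.Icc 1 N :=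
      Finset.filter_true_of_mem fun n _ => Nat.modEq_one
    rw [h2, ← sum_Icc_cast N (fun n => FF ![0, s] 1 n)] at h1
    have h3 : UU 1 N (gl ![0, s]) = (∑ n ∈ Finset.Icc (1 : ℤ) N, FF ![0, s] 1 n) ^ 2 /
        (N : ℝ) ^ (1 + 1) := by
      unfold UU
      rw [← U_one]
      rfl
    have h4 : UU 1 N (gl ![0, s]) ≤ 1 / (L : ℝ) := by
      rw [h3, div_le_iff₀ (by positivity), ← sq_abs]
      calc |∑ n ∈ Finset.Icc (1 : ℤ) N, FF ![0, s] 1 n| ^ 2 ≤ ((N : ℝ) / L) ^ 2 :=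
            pow_le_pow_left₀ (abs_nonneg _) h1 2
        _ = 1 / (L : ℝ) * (1 / L) * (N : ℝ) ^ (1 + 1) := by
            field_simp
        _ ≤ 1 / (L : ℝ) * 1 * (N : ℝ) ^ (1 + 1) := by
            apply mul_le_mul_of_nonneg_right _ (by positivity)
            apply mul_le_mul_of_nonneg_left _ (by positivity)
            rw [div_le_one (by positivity)]
            exact hL0'
        _ = 1 / (L : ℝ) * (N : ℝ) ^ (1 + 1) := by ring
    have h5 : 1 / (L : ℝ) < δ := by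
      rw [div_lt_iff₀ (by positivity)]
      rw [div_lt_iff₀ hδ] at hL
      linarith
    have := hN.2
    linarith
  · obtain ⟨K₁, hK₁0, hK₁⟩ := hCH k 2 ![0, s] δ (ρ / 2) hk2 hδ (by positivity)
    obtain ⟨K₂, hK₂⟩ := hAP 2 ![0, s] K₁ (ρ / 2) (Or.inr rfl) hinj hK₁0 (by positivity)
    refine ⟨K₁ + K₂, fun x y hx hxy => ?_⟩
    have h1 := hK₁ x y hx (le_trans (Nat.mul_le_mul_right _ (by omega)) hxy)
    have h2 := hK₂ x y hx (le_trans (Nat.mul_le_mul_right _ (by omega)) hxy)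
    rw [hfil]
    have h3 : ∑ N ∈ (Finset.Icc x y).filter (fun N : ℕ => δ ≤ UU k N (gl ![0, s])),
        (1 / (N : ℝ)) ≤
        ∑ N ∈ (Finset.Icc x y).filter (fun N : ℕ => AS ![0, s] K₁ N ∧ δ ≤ UU k N (gl ![0, s])),
          (1 / (N : ℝ)) +
        ∑ N ∈ (Finset.Icc x y).filter (fun N : ℕ => ¬ AS ![0, s] K₁ N), (1 / (N : ℝ)) := by
      rw [Finset.sum_filter, Finset.sum_filter, Finset.sum_filter, ← Finset.sum_add_distrib]
      refine Finset.sum_le_sum fun N _ => ?_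
      have hN : (0 : ℝ) ≤ 1 / (N : ℝ) := by positivity
      by_cases ha : AS ![0, s] K₁ N
      · by_cases hb : δ ≤ UU k N (gl ![0, s])
        · rw [if_pos hb, if_pos ⟨ha, hb⟩, if_neg (not_not.2 ha), add_zero]
        · rw [if_neg hb, if_neg (fun h => hb h.2), if_neg (not_not.2 ha), add_zero]
      · rw [if_neg (fun h : AS ![0, s] K₁ N ∧ δ ≤ UU k N (gl ![0, s]) => ha h.1), if_pos ha,
          zero_add]
        split_ifs
        · exact le_rfl
        · exact hN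
    refine h3.trans ?_
    calc _ ≤ ρ / 2 * Real.log ((y : ℝ) / x) + ρ / 2 * Real.log ((y : ℝ) / x) := add_le_add h1 h2
      _ = ρ * Real.log ((y : ℝ) / x) := by ring

/-- one translated sum -/
theorem one_shift (hCBT : T_CBT) (hCBU : T_CBU) {k l : ℕ} (h : Fin l → ℕ) (N : ℕ) (hN : 0 < N)
    (τ : ℤ) (D : ℝ) (hD : |(τ : ℝ)| ≤ D) :
    (∑ z ∈ CB k N, ∏ σ, FF h 1 (vx (z + Pi.single 0 τ) σ)) / (N : ℝ) ^ (k + 1) ≤
      UU k N (gl h) + 2 * D * 3 ^ k / N := by
  have hN' : (0 : ℝ) < N := by exact_mod_cast hN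
  have hN1 : (1 : ℝ) ≤ N := by exact_mod_cast hN
  rw [UU_eq hCBU]
  have h1 := (hCBT k N (fun z => ∏ σ, FF h 1 (vx z σ)) 1
    (fun z => abs_prod_le _ _ fun _ _ => abs_FF_le h _)).1 τ
  have h2 := (abs_le.1 h1).2
  have h3 : (2 * (N : ℝ) + 1) ^ k ≤ 3 ^ k * (N : ℝ) ^ k := by
    rw [← mul_pow]
    exact pow_le_pow_left₀ (by positivity) (by linarith) k
  have h4 : 2 * |(τ : ℝ)| * (2 * (N : ℝ) + 1) ^ k * 1 ≤ 2 * D * (3 ^ k * (N : ℝ) ^ k) := by
    rw [mul_one]
    apply mul_le_mul _ h3 (by positivity) _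
    · linarith
    · have := (abs_nonneg (τ : ℝ)).trans hD
      linarith
  have h5 : ∑ z ∈ CB k N, ∏ σ, FF h 1 (vx (z + Pi.single 0 τ) σ) ≤
      ∑ z ∈ CB k N, ∏ σ, FF h 1 (vx z σ) + 2 * D * (3 ^ k * (N : ℝ) ^ k) := by linarith
  refine (div_le_div_of_nonneg_right h5 (by positivity)).trans ?_
  rw [add_div]
  have h6 : 2 * D * (3 ^ k * (N : ℝ) ^ k) / (N : ℝ) ^ (k + 1) = 2 * D * 3 ^ k / N := by
    rw [pow_succ]
    field_simp
  rw [h6]

/-- one scale -/
theorem one_scale (hCBC : T_CBC) (hCBT : T_CBT) (hCBU : T_CBU) {k l : ℕ} (h : Fin l → ℕ)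
    (N L T : ℕ) (hN : 0 < N) (hT : 0 < T) (hL : 0 < L) (τ : ℤ) (B δ ε : ℝ) (hδ : 0 ≤ δ)
    (hε : 0 ≤ ε) (hB : |(τ : ℝ)| ≤ B * T) (hBL : 2 * B * 3 ^ k ≤ ε * L) :
    (∑ z ∈ CB k N, ∏ σ, FF h 1 (vx (z + Pi.single 0 τ) σ)) / (N : ℝ) ^ (k + 1) ≤
      (δ + ε) + 3 ^ k * (if δ ≤ UU k N (gl h) then 1 else 0) +
        3 ^ k * (if N < L * T then 1 else 0) := by
  have hN' : (0 : ℝ) < N := by exact_mod_cast hN
  have hT' : (0 : ℝ) < T := by exact_mod_cast hT
  have hL' : (0 : ℝ) < L := by exact_mod_cast hL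
  have h3k : (0 : ℝ) < 3 ^ k := by positivity
  have hUU : UU k N (gl h) ≤ 3 ^ k := by
    rw [UU_eq hCBU, div_le_iff₀ (by positivity)]
    exact (le_abs_self _).trans (abs_sum_CB_le hCBC k N _
      fun z => abs_prod_le _ _ fun _ _ => abs_FF_le h _)
  by_cases hc : N < L * T
  · rw [if_pos hc]
    have h1 : (∑ z ∈ CB k N, ∏ σ, FF h 1 (vx (z + Pi.single 0 τ) σ)) / (N : ℝ) ^ (k + 1) ≤
        3 ^ k := by
      rw [div_le_iff₀ (by positivity)]
      exact (le_abs_self _).trans (abs_sum_CB_le hCBC k N _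
        fun z => abs_prod_le _ _ fun _ _ => abs_FF_le h _)
    have h2 : (0 : ℝ) ≤ 3 ^ k * (if δ ≤ UU k N (gl h) then 1 else 0) := by
      split_ifs <;> positivity
    linarith
  · rw [if_neg hc, mul_zero, add_zero]
    have h1 := one_shift hCBT hCBU (k := k) h N hN τ (B * T) hB
    have h2 : 2 * (B * T) * 3 ^ k / N ≤ ε := by
      rw [div_le_iff₀ hN']
      have h3 : (L : ℝ) * T ≤ N := by
        rw [not_lt] at hc
        exact_mod_cast hc
      calc 2 * (B * T) * 3 ^ k = 2 * B * 3 ^ k * T := by ring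
        _ ≤ ε * L * T := mul_le_mul_of_nonneg_right hBL hT'.le
        _ = ε * (L * T) := by ring
        _ ≤ ε * N := mul_le_mul_of_nonneg_left h3 hε
    by_cases hd : δ ≤ UU k N (gl h)
    · rw [if_pos hd]
      linarith
    · rw [if_neg hd, mul_zero, add_zero]
      rw [not_le] at hd
      linarith

theorem Wt_pos (m T : ℕ) (hT : 0 < T) : 0 < Wt m T := by
  unfold Wt
  have h1 : (fun _ => 1 : Fin m → ℕ) ∈ box m T := by
    rw [mem_box]
    intro l
    exact ⟨le_rfl, hT⟩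
  have h2 := Finset.single_le_sum (f := fun t : Fin m → ℕ => wt t)
    (fun t _ => wt_nonneg t) h1
  refine lt_of_lt_of_le ?_ h2
  simp [wt]

theorem pf_UC (hCBC : T_CBC) (hCBT : T_CBT) (hCBU : T_CBU) (hCH : Pool.Agent.H31.GUF.F_CH)
    (hAP : Pool.Agent.H31.GUF.F_AP) : T_UC := by
  intro k m T x y hk hAdm b w s η hs hη
  obtain ⟨hT, hx, hlog, hrat⟩ := hAdm
  obtain ⟨u, hu⟩ := pair_eq (k := k) b w s
  obtain ⟨c, hc, hcN⟩ := (hCBC k).2.2
  have h3k : (0 : ℝ) < 3 ^ k := by positivity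
  -- the constants
  obtain ⟨δ, hδ⟩ : ∃ δ : ℝ, δ = η * c / 4 := ⟨_, rfl⟩
  have hδ0 : 0 < δ := by
    rw [hδ]
    positivity
  obtain ⟨ρ, hρ⟩ : ∃ ρ : ℝ, ρ = δ / 3 ^ k := ⟨_, rfl⟩
  have hρ0 : 0 < ρ := by
    rw [hρ]
    positivity
  obtain ⟨K, hK⟩ := scales hCH hAP k hk s.natAbs (Int.natAbs_ne_zero.2 hs) δ ρ hδ0 hρ0
  obtain ⟨B, hB⟩ : ∃ B : ℝ, B = |(u : ℝ)| + ∑ l, |(b l : ℝ)| := ⟨_, rfl⟩
  obtain ⟨L, hL⟩ := exists_nat_ge (2 * B * 3 ^ k / δ + 1)
  have hB0 : 0 ≤ B := by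
    rw [hB]
    positivity
  have hL1 : 1 ≤ L := by
    have h1 : (1 : ℝ) ≤ L := by
      have : 0 ≤ 2 * B * 3 ^ k / δ := by positivity
      linarith
    exact_mod_cast h1
  have hBL : 2 * B * 3 ^ k ≤ δ * L := by
    have h1 : 2 * B * 3 ^ k / δ ≤ L := by linarith
    rw [div_le_iff₀ hδ0] at h1
    linarith
  -- eventually
  have e1 : ∀ᶠ j in atTop, 0 < T j := hT.eventually_gt_atTop 0
  have e2 : ∀ᶠ j in atTop, Real.log ((K : ℝ) + 1) + 1 ≤ Real.log ((y j : ℝ) / x j) :=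
    hlog.eventually_ge_atTop _
  have e3 : ∀ᶠ j in atTop, 2 * 3 ^ k * (1 + Real.log L) / δ ≤ Real.log ((y j : ℝ) / x j) :=
    hlog.eventually_ge_atTop _
  have e4 : ∀ᶠ j in atTop, Real.log (1 + (T j : ℝ) / x j) / Real.log ((y j : ℝ) / x j) <
      δ / (2 * 3 ^ k) := hrat.eventually_lt_const (by positivity)
  filter_upwards [e1, e2, e3, e4] with j h1 h2 h3 h4
  have hx' : (0 : ℝ) < x j := by exact_mod_cast hx j
  have hlogK : 0 ≤ Real.log ((K : ℝ) + 1) := Real.log_nonneg (by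
    have := Nat.cast_nonneg (α := ℝ) K
    linarith)
  have hlogpos : 0 < Real.log ((y j : ℝ) / x j) := by linarith
  have hy0 : 0 < (y j : ℝ) / x j := by
    by_contra hcon
    have h5 : (y j : ℝ) / x j = 0 := le_antisymm (not_lt.1 hcon) (by positivity)
    rw [h5, Real.log_zero] at hlogpos
    exact lt_irrefl _ hlogpos
  have hKxy : K * x j ≤ y j := by
    have h5 : Real.log ((K : ℝ) + 1) ≤ Real.log ((y j : ℝ) / x j) := by linarith
    have h6 : (K : ℝ) + 1 ≤ (y j : ℝ) / x j :=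
      (Real.log_le_log_iff (by positivity) hy0).1 h5
    rw [le_div_iff₀ hx'] at h6
    have h7 : (K : ℝ) * x j ≤ y j := by nlinarith
    exact_mod_cast h7
  have hLs : Real.log ((y j : ℝ) / x j) ≤ Ls (x j) (y j) := Ls_ge' (hx j)
  have hLs0 : 0 < Ls (x j) (y j) := lt_of_lt_of_le hlogpos hLs
  have hW0 := Wt_pos m (T j) h1
  have hsc := hK (x j) (y j) (hx j) hKxy
  have hcut := harm_cut (hx j) (y j) L (T j) hL1
  have hsmall : 3 ^ k * (1 + Real.log L + Real.log (1 + (T j : ℝ) / x j)) ≤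
      δ * Ls (x j) (y j) := by
    rw [div_le_iff₀ hδ0] at h3
    rw [div_lt_iff₀ hlogpos] at h4
    have h5 : 3 ^ k * Real.log (1 + (T j : ℝ) / x j) ≤ δ / 2 * Real.log ((y j : ℝ) / x j) := by
      calc 3 ^ k * Real.log (1 + (T j : ℝ) / x j)
          ≤ 3 ^ k * (δ / (2 * 3 ^ k) * Real.log ((y j : ℝ) / x j)) :=
            mul_le_mul_of_nonneg_left h4.le h3k.le
        _ = δ / 2 * Real.log ((y j : ℝ) / x j) := by
            field_simp
    have h6 : 3 ^ k * (1 + Real.log L) ≤ δ / 2 * Real.log ((y j : ℝ) / x j) := by linarith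
    have h7 : δ * Real.log ((y j : ℝ) / x j) ≤ δ * Ls (x j) (y j) :=
      mul_le_mul_of_nonneg_left hLs hδ0.le
    linarith
  -- the bound for one parameter
  have hone : ∀ t ∈ box m (T j), ∑ N ∈ Finset.Icc (x j) (y j), (1 / (N : ℝ)) *
      ((∑ z ∈ CB k N, Pv (cf (k := k) b) w (Fin.append z (fun l => (t l : ℤ))) *
        Pv (cf (k := k) b) (w + s) (Fin.append z (fun l => (t l : ℤ)))) / (N : ℝ) ^ (k + 1)) ≤
      4 * δ * Ls (x j) (y j) := by
    intro t ht
    rw [mem_box] at ht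
    have hτ : |((u + ∑ l, b l * (t l : ℤ) : ℤ) : ℝ)| ≤ B * T j := by
      push_cast
      refine (abs_add_le _ _).trans ?_
      rw [hB, add_mul]
      apply add_le_add
      · have hT1 : (1 : ℝ) ≤ T j := by exact_mod_cast h1
        exact le_mul_of_one_le_right (abs_nonneg _) hT1
      · refine (Finset.abs_sum_le_sum_abs _ _).trans ?_
        rw [Finset.sum_mul]
        refine Finset.sum_le_sum fun l _ => ?_
        rw [abs_mul, Nat.abs_cast]
        exact mul_le_mul_of_nonneg_left (by exact_mod_cast (ht l).2) (abs_nonneg _)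
    have hsum : ∑ N ∈ Finset.Icc (x j) (y j), (1 / (N : ℝ)) *
        ((∑ z ∈ CB k N, Pv (cf (k := k) b) w (Fin.append z (fun l => (t l : ℤ))) *
          Pv (cf (k := k) b) (w + s) (Fin.append z (fun l => (t l : ℤ)))) / (N : ℝ) ^ (k + 1)) ≤
        ∑ N ∈ Finset.Icc (x j) (y j), ((δ + δ) * (1 / (N : ℝ)) +
          3 ^ k * ((1 / (N : ℝ)) * (if δ ≤ UU k N (gl ![0, s.natAbs]) then 1 else 0)) +
          3 ^ k * ((1 / (N : ℝ)) * (if N < L * T j then 1 else 0))) := by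
      refine Finset.sum_le_sum fun N hN => ?_
      have hN0 : 0 < N := by
        have := (Finset.mem_Icc.1 hN).1
        have := hx j
        omega
      have h5 := one_scale hCBC hCBT hCBU (k := k) ![0, s.natAbs] N L (T j) hN0 h1 hL1
        (u + ∑ l, b l * (t l : ℤ)) B δ δ hδ0.le hδ0.le hτ hBL
      simp only [hu]
      calc _ ≤ (1 / (N : ℝ)) * ((δ + δ) + 3 ^ k * (if δ ≤ UU k N (gl ![0, s.natAbs]) then 1 else 0) +
            3 ^ k * (if N < L * T j then 1 else 0)) :=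
            mul_le_mul_of_nonneg_left h5 (by positivity)
        _ = _ := by ring
    refine hsum.trans ?_
    rw [Finset.sum_add_distrib, Finset.sum_add_distrib, ← Finset.mul_sum, ← Finset.mul_sum,
      ← Finset.mul_sum]
    have h6 : ∑ N ∈ Finset.Icc (x j) (y j), (1 / (N : ℝ)) = Ls (x j) (y j) := rfl
    rw [h6]
    have h7 := mul_le_mul_of_nonneg_left hsc h3k.le
    have h8 : 3 ^ k * (ρ * Real.log ((y j : ℝ) / x j)) ≤ δ * Ls (x j) (y j) := by
      calc 3 ^ k * (ρ * Real.log ((y j : ℝ) / x j)) = δ * Real.log ((y j : ℝ) / x j) := by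
            rw [hρ]
            field_simp
        _ ≤ δ * Ls (x j) (y j) := mul_le_mul_of_nonneg_left hLs hδ0.le
    have h9 := mul_le_mul_of_nonneg_left hcut h3k.le
    linarith
  have hnum : ak k m (T j) (x j) (y j)
      (fun ω => Pv (cf (k := k) b) w ω * Pv (cf (k := k) b) (w + s) ω) ≤
      Wt m (T j) * (4 * δ * Ls (x j) (y j)) := by
    unfold ak Wt
    rw [Finset.sum_mul]
    exact Finset.sum_le_sum fun t ht => mul_le_mul_of_nonneg_left (hone t ht) (wt_nonneg t)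
  have hden : c * (Wt m (T j) * Ls (x j) (y j)) ≤ ak k m (T j) (x j) (y j) (fun _ => 1) := by
    unfold ak Wt
    rw [Finset.sum_mul, Finset.mul_sum]
    refine Finset.sum_le_sum fun t _ => ?_
    rw [mul_left_comm]
    apply mul_le_mul_of_nonneg_left _ (wt_nonneg t)
    unfold Ls
    rw [Finset.mul_sum]
    refine Finset.sum_le_sum fun N hN => ?_
    have hN0 : 0 < N := by
      have := (Finset.mem_Icc.1 hN).1
      have := hx j
      omega
    have hN0' : (0 : ℝ) < N := by exact_mod_cast hN0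
    rw [mul_comm c]
    apply mul_le_mul_of_nonneg_left _ (by positivity)
    rw [Finset.sum_const, nsmul_eq_mul, mul_one, le_div_iff₀ (by positivity)]
    exact hcN N
  have hden0 : 0 < ak k m (T j) (x j) (y j) (fun _ => 1) :=
    lt_of_lt_of_le (by positivity) hden
  unfold av
  rw [div_le_iff₀ hden0]
  refine hnum.trans ?_
  calc Wt m (T j) * (4 * δ * Ls (x j) (y j)) = η * (c * (Wt m (T j) * Ls (x j) (y j))) := by
        rw [hδ]
        ring
    _ ≤ η * ak k m (T j) (x j) (y j) (fun _ => 1) := mul_le_mul_of_nonneg_left hden hη.le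

end Pool.Agent.H88.UF
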